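import Pool.Graph.R_seed8.Helper730.WmnFinal

/-!
# MP_6f2ea1_al: a four-generator torsion-free soluble group with the weak minimal condition on normal
subgroups that is not minimax

The library gives a counterexample `S ⋊ Q` with `S` a simple module for a Heisenberg group over `ℤ[1/2]`
extended by a dilation. Here: the group is generated by four elements and its derived length is at
most four. So Q1 fails already for finitely generated soluble groups.
-/

set_option autoImplicit false

namespace Pool.Agent.Results.MP_6f2ea1_al.FourGenerators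

open Pool.Agent.Helper730.WMN

/-- Every descending chain of normal subgroups has only finitely many infinite indices. -/
def WeakMinNormal (G : Type) [Group G] : Prop :=
  ∀ N : ℕ → Subgroup G, (∀ k, (N k).Normal) → Antitone N →
    ∃ m : ℕ, ∀ k : ℕ, m ≤ k → ((N (k + 1)).subgroupOf (N k)).index ≠ 0

/-- `G` has a finite subnormal series each of whose factors `H (i+1) / H i` satisfies the maximal or the
minimal condition on subgroups (these correspond to the subgroups between `H i` and `H (i+1)`). -/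
def Minimax (G : Type) [Group G] : Prop :=
  ∃ (n : ℕ) (H : ℕ → Subgroup G), H 0 = ⊥ ∧ H n = ⊤ ∧
    ∀ i : ℕ, i < n →
      (H i ≤ H (i + 1) ∧ ((H i).subgroupOf (H (i + 1))).Normal ∧
        ((∀ f : ℕ → Subgroup G, (∀ k, H i ≤ f k ∧ f k ≤ H (i + 1)) → Monotone f →
            ∃ m : ℕ, ∀ k : ℕ, m ≤ k → f k = f m) ∨
         (∀ f : ℕ → Subgroup G, (∀ k, H i ≤ f k ∧ f k ≤ H (i + 1)) → Antitone f →
            ∃ m : ℕ, ∀ k : ℕ, m ≤ k → f k = f m)))

/-! ### generators of `QQ` -/

def gA (x : ℚ) (hx : x ∈ B2) : QQ := ⟨x, 0, 0, 0, hx, B2.zero_mem, B2.zero_mem⟩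
def gB (x : ℚ) (hx : x ∈ B2) : QQ := ⟨0, x, 0, 0, B2.zero_mem, hx, B2.zero_mem⟩
def gC (x : ℚ) (hx : x ∈ B2) : QQ := ⟨0, 0, x, 0, B2.zero_mem, B2.zero_mem, hx⟩
def gT (n : ℤ) : QQ := ⟨0, 0, 0, n, B2.zero_mem, B2.zero_mem, B2.zero_mem⟩

theorem half_mem {x : ℚ} (hx : x ∈ B2) : x / 2 ∈ B2 := by
  obtain ⟨k, m, h⟩ := hx
  refine ⟨k + 1, m, ?_⟩
  rw [← h, pow_succ]
  ring

/-- dyadic induction -/
theorem dyadic (P : ∀ x : ℚ, x ∈ B2 → Prop) (h1 : P 1 B2.one_mem)
    (ha : ∀ x hx y hy, P x hx → P y hy → P (x + y) (B2.add_mem hx hy))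
    (hn : ∀ x hx, P x hx → P (-x) (B2.neg_mem hx))
    (hh : ∀ x hx, P x hx → P (x / 2) (half_mem hx)) (x : ℚ) (hx : x ∈ B2) : P x hx := by
  have h0 : P 0 B2.zero_mem := by
    have := ha _ _ _ _ h1 (hn _ _ h1)
    convert this using 1
    ring
  have hnat : ∀ m : ℕ, ∃ h : (m : ℚ) ∈ B2, P m h := by
    intro m
    induction m with
    | zero =>
      refine ⟨by simpa using B2.zero_mem, ?_⟩
      convert h0 using 1
      simp
    | succ m ih =>
      obtain ⟨h, h'⟩ := ih
      refine ⟨by push_cast; exact B2.add_mem h B2.one_mem, ?_⟩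
      convert ha _ _ _ _ h' h1 using 1
      push_cast
      rfl
  have hint : ∀ m : ℤ, ∃ h : (m : ℚ) ∈ B2, P m h := by
    intro m
    obtain ⟨k, rfl | rfl⟩ := m.eq_nat_or_neg
    · obtain ⟨h, h'⟩ := hnat k
      exact ⟨by simpa using h, by simpa using h'⟩
    · obtain ⟨h, h'⟩ := hnat k
      refine ⟨by push_cast; exact B2.neg_mem h, ?_⟩
      convert hn _ _ h' using 1
      push_cast
      rfl
  have hpow : ∀ (k : ℕ) (y : ℚ) (hy : y ∈ B2), P y hy → ∃ h : y / 2 ^ k ∈ B2, P (y / 2 ^ k) h := by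
    intro k
    induction k with
    | zero =>
      intro y hy h
      exact ⟨by simpa using hy, by simpa using h⟩
    | succ k ih =>
      intro y hy h
      obtain ⟨h1, h2⟩ := ih _ _ (hh y hy h)
      have e : y / 2 ^ (k + 1) = y / 2 / 2 ^ k := by
        rw [pow_succ, div_div, mul_comm]
      refine ⟨by rw [e]; exact h1, ?_⟩
      convert h2 using 1
  obtain ⟨k, m, h⟩ := id hx
  obtain ⟨h2, h3⟩ := hint m
  obtain ⟨h4, h5⟩ := hpow k _ _ h3
  have e : x = (m : ℚ) / 2 ^ k := by
    rw [← h]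
    field_simp
  convert h5 using 1

theorem QQ_gen (K : Subgroup QQ) (hA : gA 1 B2.one_mem ∈ K) (hB : gB 1 B2.one_mem ∈ K) (hT : gT 1 ∈ K) :
    K = ⊤ := by
  have hTi : gT (-1) ∈ K := by
    have h1 : gT (-1) = (gT 1)⁻¹ := by
      ext <;> simp [gT]
    rw [h1]
    exact K.inv_mem hT
  have hA' : ∀ x hx, gA x hx ∈ K := by
    apply dyadic
    · exact hA
    · intro x hx y hy h1 h2
      have e : gA (x + y) (B2.add_mem hx hy) = gA x hx * gA y hy := by
        ext <;> simp [gA]
      rw [e]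
      exact K.mul_mem h1 h2
    · intro x hx h1
      have e : gA (-x) (B2.neg_mem hx) = (gA x hx)⁻¹ := by
        ext <;> simp [gA]
      rw [e]
      exact K.inv_mem h1
    · intro x hx h1
      have e : gA (x / 2) (half_mem hx) = gT 1 * gA x hx * gT (-1) := by
        ext <;> simp [gA, gT]
        ring
      rw [e]
      exact K.mul_mem (K.mul_mem hT h1) hTi
  have hB' : ∀ x hx, gB x hx ∈ K := by
    apply dyadic
    · exact hB
    · intro x hx y hy h1 h2
      have e : gB (x + y) (B2.add_mem hx hy) = gB x hx * gB y hy := by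
        ext <;> simp [gB]
      rw [e]
      exact K.mul_mem h1 h2
    · intro x hx h1
      have e : gB (-x) (B2.neg_mem hx) = (gB x hx)⁻¹ := by
        ext <;> simp [gB]
      rw [e]
      exact K.inv_mem h1
    · intro x hx h1
      have e : gB (x / 2) (half_mem hx) = gT (-1) * gB x hx * gT 1 := by
        ext <;> simp [gB, gT]
        ring
      rw [e]
      exact K.mul_mem (K.mul_mem hTi h1) hT
  have hC' : ∀ x hx, gC x hx ∈ K := by
    intro x hx
    have e : gC x hx = gB 1 B2.one_mem * gA (-x) (B2.neg_mem hx) *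
        (gA (-x) (B2.neg_mem hx) * gB 1 B2.one_mem)⁻¹ := by
      ext <;> simp [gA, gB, gC]
    rw [e]
    exact K.mul_mem (K.mul_mem hB (hA' _ _)) (K.inv_mem (K.mul_mem (hA' _ _) hB))
  have hT' : ∀ n : ℤ, gT n ∈ K := by
    intro n
    induction n using Int.induction_on with
    | zero => exact K.one_mem
    | succ n ih =>
      have e : gT ((n : ℤ) + 1) = gT n * gT 1 := by
        ext <;> simp [gT]
      rw [e]
      exact K.mul_mem ih hT
    | pred n ih =>
      have e : gT (-(n : ℤ) - 1) = gT (-n) * gT (-1) := by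
        ext <;> simp [gT]
        ring
      rw [e]
      exact K.mul_mem ih hTi
  rw [eq_top_iff]
  rintro ⟨a, b, c, n, ha, hb, hc⟩ -
  have e : (⟨a, b, c, n, ha, hb, hc⟩ : QQ) = gC c hc * gA a ha * gB b hb * gT n := by
    ext <;> simp [gA, gB, gC, gT]
  rw [e]
  exact K.mul_mem (K.mul_mem (K.mul_mem (hC' _ _) (hA' _ _)) (hB' _ _)) (hT' _)

/-! ### derived length -/

theorem QQ_derived : derivedSeries QQ 3 = ⊥ := by
  have h1 : derivedSeries QQ 1 ≤ QQ.K1 := by
    rw [derivedSeries_succ, derivedSeries_zero, Subgroup.commutator_le]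
    intro g _ h _
    rw [QQ.mem_K1, commutatorElement_def]
    simp only [QQ.mul_n, QQ.inv_n]
    ring
  have h2 : derivedSeries QQ 2 ≤ QQ.K2 := by
    rw [derivedSeries_succ]
    refine (Subgroup.commutator_mono h1 h1).trans ?_
    rw [Subgroup.commutator_le]
    intro g hg h hh
    rw [QQ.mem_K1] at hg hh
    rw [QQ.mem_K2, commutatorElement_def]
    constructor
    · simp only [QQ.mul_n, QQ.inv_n]; ring
    · simp only [QQ.mul_n, QQ.mul_b, QQ.inv_b, QQ.inv_n, hg, hh]; simp
  rw [derivedSeries_succ, eq_bot_iff]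
  refine (Subgroup.commutator_mono h2 h2).trans ?_
  rw [Subgroup.commutator_le]
  intro g hg h hh
  rw [QQ.mem_K2] at hg hh
  rw [Subgroup.mem_bot, commutatorElement_eq_one_iff_mul_comm]
  ext
  · simp [hg.1, hh.1, add_comm]
  · simp [hg.1, hh.1, hg.2, hh.2]
  · simp [hg.1, hh.1, hg.2, hh.2, add_comm]
  · simp [hg.1, hh.1]

variable {S : Type} [AddCommGroup S] [DistribMulAction QQ S]

theorem GG_derived : derivedSeries (GG S) 4 = ⊥ := by
  have h1 : derivedSeries (GG S) 3 ≤ (GG.proj : GG S →* QQ).ker := by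
    have := map_derivedSeries_le_derivedSeries (GG.proj : GG S →* QQ) 3
    rw [QQ_derived] at this
    intro x hx
    have h2 := this ⟨x, hx, rfl⟩
    rw [Subgroup.mem_bot] at h2
    exact h2
  rw [derivedSeries_succ, eq_bot_iff]
  refine (Subgroup.commutator_mono h1 h1).trans ?_
  rw [Subgroup.commutator_le]
  intro x hx y hy
  have hx' : x.q = 1 := hx
  have hy' : y.q = 1 := hy
  rw [Subgroup.mem_bot, commutatorElement_eq_one_iff_mul_comm, GG.eq_inl x hx', GG.eq_inl y hy',
    ← GG.inl_add, ← GG.inl_add, add_comm]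

/-- the copy of `QQ` in `GG S` -/
def inr : QQ →* GG S where
  toFun q := ⟨0, q⟩
  map_one' := rfl
  map_mul' p q := by
    apply GG.ext
    · rw [GG.mul_s]; simp
    · rw [GG.mul_q]

theorem GG_gen (hsimple : ∀ P : AddSubgroup S, (∀ q : QQ, ∀ s ∈ P, q • s ∈ P) → P = ⊥ ∨ P = ⊤)
    {s0 : S} (hs0 : s0 ≠ 0) (K : Subgroup (GG S)) (h0 : GG.inl s0 ∈ K)
    (hA : inr (gA 1 B2.one_mem) ∈ K) (hB : inr (gB 1 B2.one_mem) ∈ K) (hT : inr (gT 1) ∈ K) : K = ⊤ := by
  have h1 : K.comap (inr : QQ →* GG S) = ⊤ := QQ_gen _ hA hB hT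
  have hr : ∀ q : QQ, (inr q : GG S) ∈ K := by
    intro q
    have : q ∈ K.comap (inr : QQ →* GG S) := by rw [h1]; trivial
    exact this
  let P : AddSubgroup S :=
    { carrier := {s | GG.inl s ∈ K}
      add_mem' := by
        intro s t hs ht
        change GG.inl (s + t) ∈ K
        rw [GG.inl_add]
        exact K.mul_mem hs ht
      zero_mem' := by
        change GG.inl (0 : S) ∈ K
        rw [GG.inl_zero]
        exact K.one_mem
      neg_mem' := by
        intro s hs
        change GG.inl (-s) ∈ K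
        rw [GG.inl_neg]
        exact K.inv_mem hs }
  have hP : P = ⊤ := by
    refine (hsimple P ?_).resolve_left ?_
    · intro q s hs
      change GG.inl (q • s) ∈ K
      have h2 : (inr q : GG S) * GG.inl s * (inr q : GG S)⁻¹ = GG.inl (q • s) := by
        apply GG.ext
        · rw [GG.mul_s, GG.mul_s, GG.mul_q, GG.inv_s]
          simp [GG.inl, inr]
        · rw [GG.mul_q, GG.mul_q, GG.inv_q]
          simp [GG.inl, inr]
      rw [← h2]
      exact K.mul_mem (K.mul_mem (hr q) hs) (K.inv_mem (hr q))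
    · intro h
      apply hs0
      have h2 : s0 ∈ P := h0
      rw [h] at h2
      exact h2
  rw [eq_top_iff]
  intro x _
  have h2 : x = GG.inl x.s * inr x.q := by
    apply GG.ext
    · rw [GG.mul_s]; simp [GG.inl, inr]
    · rw [GG.mul_q]; simp [GG.inl, inr]
  rw [h2]
  have h3 : x.s ∈ P := by rw [hP]; trivial
  exact K.mul_mem h3 (hr _)

/-- There is a group generated by four elements, torsion-free and soluble of derived length at most four,
that satisfies the weak minimal condition on normal subgroups and is not minimax. -/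
theorem result : ∃ (G : Type) (_ : Group G),
    (∃ a b c d : G, Subgroup.closure {a, b, c, d} = ⊤) ∧
    derivedSeries G 4 = ⊥ ∧
    (∀ g : G, ∀ n : ℕ, 0 < n → g ^ n = 1 → g = 1) ∧
    WeakMinNormal G ∧ ¬ Minimax G := by
  obtain ⟨S, instA, instD, ⟨s0, hs0⟩, hsimple, hdiv, htf⟩ := exists_simple
  refine ⟨GG S, inferInstance, ⟨GG.inl s0, inr (gA 1 B2.one_mem), inr (gB 1 B2.one_mem), inr (gT 1), ?_⟩,
    GG_derived, fun g n hn hg => GG.torsion_free htf g n hn hg, ?_, ?_⟩
  · apply GG_gen hsimple hs0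
    · exact Subgroup.subset_closure (by simp)
    · exact Subgroup.subset_closure (by simp)
    · exact Subgroup.subset_closure (by simp)
    · exact Subgroup.subset_closure (by simp)
  · intro N hN hA
    obtain ⟨m, hm⟩ := GG.wmn hsimple N hN hA
    exact ⟨m, fun k hk => index_ne_zero_of_FI (hm k hk)⟩
  · rintro ⟨n, H, h0, hn, hst⟩
    exact GG.not_minimax ⟨s0, hs0⟩ hdiv htf n H h0 hn hst

end Pool.Agent.Results.MP_6f2ea1_al.FourGenerators
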